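import Mathlib

set_option autoImplicit false

/-!
# Nonsingular solutions of algebraic systems are algebraic
-/

namespace Pool.Agent.Q13.CQ

open MvPolynomial

theorem alg_point {k E : Type} [Field k] [Field E] [Algebra k E] {n : ℕ}
    (p : Fin n → E) (f : Fin n → MvPolynomial (Fin n) k) (hf : ∀ i, aeval p (f i) = 0)
    (hdet : (Matrix.of fun i j => aeval p (pderiv j (f i))).det ≠ 0) :
    ∀ j, IsAlgebraic k (p j) := by
  set F := IntermediateField.adjoin k (Set.range p) with hF
  have hmem : ∀ j, p j ∈ F := fun j => IntermediateField.subset_adjoin k _ ⟨j, rfl⟩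
  let P : Fin n → F := fun j => ⟨p j, hmem j⟩
  have hP : ∀ g : MvPolynomial (Fin n) k, ((aeval P g : F) : E) = aeval p g := by
    intro g
    exact MvPolynomial.comp_aeval_apply P F.val g
  have hfP : ∀ i, aeval P (f i) = 0 := by
    intro i
    apply Subtype.ext
    rw [hP, hf]
    rfl
  have hdetP : (Matrix.of fun i j => aeval P (pderiv j (f i))).det ≠ 0 := by
    intro h
    apply hdet
    have h1 := congrArg F.val h
    rw [AlgHom.map_det, map_zero] at h1
    rw [← h1]
    congr 1
    ext i j
    simp only [Matrix.of_apply, AlgHom.mapMatrix_apply, Matrix.map_apply]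
    exact (hP _).symm
  have hD : ∀ j, KaehlerDifferential.D k F (P j) = 0 := by
    have h1 : ∀ i, ∑ j, aeval P (pderiv j (f i)) • KaehlerDifferential.D k F (P j) = 0 := by
      intro i
      have h2 : KaehlerDifferential.D k F (aeval P (f i)) =
          ∑ j, aeval P (pderiv j (f i)) • KaehlerDifferential.D k F (P j) := by
        have h3 := MvPolynomial.induction_on (motive := fun g => KaehlerDifferential.D k F (aeval P g) =
          ∑ j, aeval P (pderiv j g) • KaehlerDifferential.D k F (P j)) (f i) ?_ ?_ ?_
        · exact h3
        · intro a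
          simp only [aeval_C, Derivation.map_algebraMap, pderiv_C, map_zero, zero_smul,
            Finset.sum_const_zero]
        · intro g1 g2 h1 h2
          simp only [map_add, add_smul, Finset.sum_add_distrib, h1, h2]
        · intro g j hg
          have e1 : ∀ l, aeval P (pderiv l (g * X j)) • KaehlerDifferential.D k F (P l) =
              aeval P g • (if l = j then KaehlerDifferential.D k F (P l) else 0) +
              P j • (aeval P (pderiv l g) • KaehlerDifferential.D k F (P l)) := by
            intro l
            rw [pderiv_mul, map_add, map_mul, map_mul, aeval_X, add_smul]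
            by_cases h : l = j
            · subst h
              rw [pderiv_X_self, map_one, mul_one, if_pos rfl, add_comm, smul_smul, mul_comm (P l)]
            · rw [pderiv_X_of_ne (Ne.symm h), map_zero, mul_zero, zero_smul, add_zero, if_neg h,
                smul_zero, zero_add, smul_smul, mul_comm (P j)]
          rw [Finset.sum_congr rfl fun l _ => e1 l, Finset.sum_add_distrib, ← Finset.smul_sum,
            ← Finset.smul_sum, ← hg, map_mul, aeval_X, Derivation.leibniz]
          simp
      rw [← h2, hfP, map_zero]
    set M : Matrix (Fin n) (Fin n) F := Matrix.of fun i j => aeval P (pderiv j (f i)) with hM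
    intro l
    have h4 : ∀ i, ∑ j, M i j • KaehlerDifferential.D k F (P j) = 0 := h1
    have h5 : ∑ i, M.adjugate l i • ∑ j, M i j • KaehlerDifferential.D k F (P j) =
        M.det • KaehlerDifferential.D k F (P l) := by
      simp_rw [Finset.smul_sum, smul_smul]
      rw [Finset.sum_comm]
      simp_rw [← Finset.sum_smul]
      have h6 : ∀ j, ∑ i, M.adjugate l i * M i j = if l = j then M.det else 0 := by
        intro j
        have := congrFun (congrFun (Matrix.adjugate_mul M) l) j
        rw [Matrix.mul_apply] at this
        rw [this, Matrix.smul_apply, Matrix.one_apply, smul_eq_mul, mul_ite, mul_one, mul_zero]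
      simp_rw [h6, ite_smul, zero_smul]
      rw [Finset.sum_ite_eq]
      simp
    simp_rw [h4, smul_zero, Finset.sum_const_zero] at h5
    exact (smul_eq_zero.1 h5.symm).resolve_left hdetP
  -- all differentials vanish
  have hD0 : ∀ x : F, KaehlerDifferential.D k F x = 0 := by
    rintro ⟨x, hx⟩
    have hx' : x ∈ IntermediateField.adjoin k (Set.range p) := hx
    refine IntermediateField.adjoin_induction k
      (p := fun x hx => KaehlerDifferential.D k F ⟨x, hx⟩ = 0) ?_ ?_ ?_ ?_ ?_ hx'
    · rintro _ ⟨j, rfl⟩
      exact hD j
    · intro a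
      exact Derivation.map_algebraMap _ a
    · intro x y hx hy h1 h2
      have : (⟨x + y, F.add_mem hx hy⟩ : F) = ⟨x, hx⟩ + ⟨y, hy⟩ := rfl
      rw [this, map_add, h1, h2, add_zero]
    · intro x hx h1
      have : (⟨x⁻¹, F.inv_mem hx⟩ : F) = (⟨x, hx⟩ : F)⁻¹ := rfl
      rw [this, Derivation.leibniz_inv, h1, smul_zero]
    · intro x y hx hy h1 h2
      have : (⟨x * y, F.mul_mem hx hy⟩ : F) = ⟨x, hx⟩ * ⟨y, hy⟩ := rfl
      rw [this, Derivation.leibniz, h1, h2, smul_zero, smul_zero, add_zero]
  have hun : Algebra.FormallyUnramified k F := by
    rw [Algebra.formallyUnramified_iff]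
    refine ⟨fun x y => ?_⟩
    have h0 : ∀ z : Ω[F⁄k], z = 0 := by
      intro z
      have hz : z ∈ Submodule.span F (Set.range (KaehlerDifferential.D k F)) := by
        rw [KaehlerDifferential.span_range_derivation]
        trivial
      induction hz using Submodule.span_induction with
      | mem z hz =>
        obtain ⟨x, rfl⟩ := hz
        exact hD0 x
      | zero => rfl
      | add a b _ _ ha hb => rw [ha, hb, add_zero]
      | smul a b _ hb => rw [hb, smul_zero]
    rw [h0 x, h0 y]
  have hess : Algebra.EssFiniteType k F := by
    rw [IntermediateField.essFiniteType_iff]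
    exact IntermediateField.fg_adjoin_of_finite (Set.finite_range p)
  have hsep : Algebra.IsSeparable k F := Algebra.FormallyUnramified.iff_isSeparable k F |>.1 hun
  intro j
  have h1 : IsAlgebraic k (P j) := (Algebra.IsSeparable.isIntegral k (P j)).isAlgebraic
  have h2 := h1.algHom F.val
  exact h2

end Pool.Agent.Q13.CQ
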