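import Pool.Agent.Q13.CQ.Main

set_option autoImplicit false

/-!
The local inequalities and their assembly.
-/

namespace Pool.Agent.Q13.CQ

open MvPolynomial Pool.Agent.W180.RR Pool.Agent.Q13.AP Topology

section

variable {q r : ℕ} (F : Fin q → MvPolynomial (Fin 3) ℤ) (L : Fin r → Fin 3 → ℂ)
  (d : Fin q → ℕ)

/-- the real vector of an integer vector -/
def rv (x : Fin 3 → ℤ) : Fin 3 → ℝ := fun j => (x j : ℝ)

lemma rv_ch (a : Fin 3) (x : Fin 3 → ℤ) (hx : x a ≠ 0) :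
    rv x = fun j => (x a : ℝ) * ch a x j := by
  have hx' : (x a : ℝ) ≠ 0 := by exact_mod_cast hx
  funext j
  unfold rv ch
  field_simp

lemma val_rv (hF : ∀ i, (F i).IsHomogeneous (d i)) (a : Fin 3) (x : Fin 3 → ℤ) (hx : x a ≠ 0)
    (i : Fin q ⊕ Fin r) :
    val F L i (rv x) = |(x a : ℝ)| ^ (dg d r i) * val F L i (ch a x) := by
  rw [rv_ch a x hx, val_smul F L hF]

/-- integrality -/
lemma lower {D : ℕ} (hd : ∀ i, d i ≤ D) (hF : ∀ i, (F i).IsHomogeneous (d i)) (a : Fin 3)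
    (x : Fin 3 → ℤ) (hx0 : x ≠ 0) (hx : x a ≠ 0) (i : Fin q)
    (hv : val F L (Sum.inl i) (rv x) ≠ 0) :
    Real.exp (-(D * Real.log (hgt x))) ≤ val F L (Sum.inl i) (ch a x) := by
  have h1 := val_rv F L d hF a x hx (Sum.inl i)
  have hxa : 0 < |(x a : ℝ)| := abs_pos.2 (by exact_mod_cast hx)
  have h2 : 1 ≤ val F L (Sum.inl i) (rv x) := by
    have h3 : val F L (Sum.inl i) (rv x) = |((aeval x (F i) : ℤ) : ℝ)| := by
      show |aeval (rv x) (F i)| = _
      congr 1
      have := MvPolynomial.comp_aeval_apply (R := ℤ) x ((Int.castRingHom ℝ).toIntAlgHom) (F i)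
      have h1 : ((Int.castRingHom ℝ).toIntAlgHom : ℤ →ₐ[ℤ] ℝ) (aeval x (F i)) =
        ((aeval x (F i) : ℤ) : ℝ) := rfl
      rw [← h1, this]
      rfl
    rw [h3] at hv ⊢
    have h4 : (aeval x (F i) : ℤ) ≠ 0 := by
      intro h
      rw [h] at hv
      simp at hv
    exact_mod_cast Int.one_le_abs h4
  have hH := hgt_ge_one hx0
  have hHp : 0 < hgt x := by linarith
  have h5 : |(x a : ℝ)| ^ (dg d r (Sum.inl i)) ≤ hgt x ^ D := by
    show |(x a : ℝ)| ^ d i ≤ _
    exact (pow_le_pow_left₀ (abs_nonneg _) (le_hgt x a) _).trans (pow_le_pow_right₀ hH (hd i))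
  have h6 : Real.exp (-(D * Real.log (hgt x))) = (hgt x ^ D)⁻¹ := by
    rw [Real.exp_neg, ← Real.log_pow, Real.exp_log (pow_pos hHp _)]
  rw [h6, inv_le_iff_one_le_mul₀ (pow_pos hHp _)]
  have h7 : 0 ≤ val F L (Sum.inl i) (ch a x) := val_nonneg F L _ _
  calc (1 : ℝ) ≤ _ := h2
    _ = _ := h1
    _ ≤ hgt x ^ D * val F L (Sum.inl i) (ch a x) := mul_le_mul_of_nonneg_right h5 h7
    _ = _ := by ring

lemma exists_unit (a : Fin 3) (P Y : Fin 3 → ℝ) (hPa : P a = 1) (hY : dt Y P = 0) (hY0 : Y ≠ 0) :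
    ∃ b : Fin 3, (Matrix.of (M3 a (fun j => if j = b then 1 else 0) Y)).det ≠ 0 := by
  by_contra hcon
  push Not at hcon
  apply hY0
  have h0 := hcon 0
  have h1 := hcon 1
  have h2 := hcon 2
  unfold dt at hY
  rw [Fin.sum_univ_three] at hY
  funext b
  fin_cases a <;> fin_cases b <;>
    simp [M3, Matrix.det_fin_three] at h0 h1 h2 hPa hY ⊢ <;> grind

/-- the inequality near a point of one component -/
lemma single {D : ℕ} (hD : 2 ≤ D) (hd : ∀ i, d i ≤ D) (hF : ∀ i, (F i).IsHomogeneous (d i))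
    (hL : ∀ j b, IsAlgebraic ℚ (L j b)) (hNC : NC F L) (ε : ℝ) (hε : 0 < ε)
    (a : Fin 3) (P : Fin 3 → ℝ) (hPa : P a = 1) (i : Fin q ⊕ Fin r) (hi : val F L i P = 0) :
    ∃ (Z : Finset (Fin 3 → ℤ)) (K : ℝ), (∀ z ∈ Z, z ≠ 0) ∧ ∀ x : Fin 3 → ℤ, x ≠ 0 → x a ≠ 0 →
      ‖ch a x - P‖ ≤ 1 → (∀ i, val F L i (rv x) ≠ 0) → (∀ z ∈ Z, ∑ l, z l * x l ≠ 0) →
      - Real.log (val F L i (ch a x)) ≤ (D + 1 + ε) * Real.log (hgt x) + K := by
  have hP0 : P ≠ 0 := by
    intro h
    rw [h] at hPa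
    simp at hPa
  have hD' : (2 : ℝ) ≤ D := by exact_mod_cast hD
  rcases i with i | j
  · refine ⟨∅, 0, by simp, fun x hx0 hxa _ hv _ => ?_⟩
    have h1 := lower F L d hd hF a x hx0 hxa i (hv _)
    have h2 := Real.log_le_log (Real.exp_pos _) h1
    rw [Real.log_exp] at h2
    have h3 : 0 ≤ Real.log (hgt x) := Real.log_nonneg (hgt_ge_one hx0)
    nlinarith
  · -- the real form
    have hLj : L j ≠ 0 := by
      have h1 := hNC P hP0
      exact h1.ne_zero ⟨Sum.inr j, hi⟩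
    obtain ⟨s, hs⟩ : ∃ s : Bool, (fun b => if s then (L j b).re else (L j b).im : Fin 3 → ℝ) ≠ 0 := by
      by_contra hcon
      push Not at hcon
      apply hLj
      funext b
      have h1 := congrFun (hcon true) b
      have h2 := congrFun (hcon false) b
      simp only [if_true, Bool.false_eq_true, if_false, Pi.zero_apply] at h1 h2
      exact Complex.ext h1 h2
    set Y : Fin 3 → ℝ := fun b => if s then (L j b).re else (L j b).im with hY
    have hYle : ∀ η : Fin 3 → ℝ, |dt Y η| ≤ val F L (Sum.inr j) η := fun η => part_le (L j) s η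
    have hYP : dt Y P = 0 := by
      have := hYle P
      rw [hi] at this
      exact abs_eq_zero.1 (le_antisymm this (abs_nonneg _))
    obtain ⟨b, hb⟩ := exists_unit a P Y hPa hYP hs
    obtain ⟨Z, C, hZ, hC, hx⟩ := sch3 a (fun j => if j = b then 1 else 0) Y (by
      intro c
      show IsAlgebraic ℚ (if c = b then (1 : ℝ) else 0)
      split_ifs
      · exact isAlgebraic_one
      · exact isAlgebraic_zero) (fun c => part_alg (L j) (hL j) s c) hb ε hε
    refine ⟨Z, |Real.log (C * (|P b| + 1))|, hZ, fun x hx0 hxa hn hv hxZ => ?_⟩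
    have h1 := hx x hx0 hxa hxZ
    have h2 : |dt (fun j => if j = b then 1 else 0) (ch a x)| ≤ |P b| + 1 := by
      have e : dt (fun j => if j = b then 1 else 0) (ch a x) = ch a x b := by
        simp [dt]
      rw [e]
      have h3 := norm_le_pi_norm (ch a x - P) b
      have h4 : |ch a x b - P b| ≤ 1 := by
        rw [← Real.norm_eq_abs]
        exact h3.trans hn
      have h5 : |ch a x b| ≤ |P b| + |ch a x b - P b| := by
        have := abs_add_le (P b) (ch a x b - P b)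
        rwa [add_sub_cancel] at this
      linarith
    have hval : 0 < val F L (Sum.inr j) (ch a x) := by
      have h3 := hv (Sum.inr j)
      rw [val_rv F L d hF a x hxa] at h3
      exact lt_of_le_of_ne (val_nonneg F L _ _) (Ne.symm (right_ne_zero_of_mul h3))
    have h6 : Real.exp (-(3 + ε) * Real.log (hgt x)) ≤
        (C * (|P b| + 1)) * val F L (Sum.inr j) (ch a x) := by
      refine h1.trans ?_
      rw [mul_assoc]
      apply mul_le_mul_of_nonneg_left _ hC.le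
      exact mul_le_mul h2 (hYle _) (abs_nonneg _) (by positivity)
    have h7 := Real.log_le_log (Real.exp_pos _) h6
    rw [Real.log_exp, Real.log_mul (by positivity) hval.ne'] at h7
    have h8 := le_abs_self (Real.log (C * (|P b| + 1)))
    have h9 : 0 ≤ Real.log (hgt x) := Real.log_nonneg (hgt_ge_one hx0)
    nlinarith

/-- the inequality near a crossing point, one of the two orders -/
lemma double_aux {D : ℕ} (hD : 2 ≤ D) (hd : ∀ i, d i ≤ D) (hF : ∀ i, (F i).IsHomogeneous (d i))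
    (hL : ∀ j b, IsAlgebraic ℚ (L j b)) (hNC : NC F L) (ε : ℝ) (hε : 0 < ε)
    (a : Fin 3) (P : Fin 3 → ℝ) (hPa : P a = 1) (i j : Fin q ⊕ Fin r) (hij : i ≠ j)
    (hi : val F L i P = 0) (hj : val F L j P = 0) :
    ∃ (Z : Finset (Fin 3 → ℤ)) (s0 K : ℝ), (∀ z ∈ Z, z ≠ 0) ∧ 0 < s0 ∧ s0 ≤ 1 ∧
      ∀ x : Fin 3 → ℤ, x ≠ 0 → x a ≠ 0 →
      ‖ch a x - P‖ ≤ s0 → (∀ i, val F L i (rv x) ≠ 0) → (∀ z ∈ Z, ∑ l, z l * x l ≠ 0) →
      val F L i (ch a x) ≤ val F L j (ch a x) →
      - Real.log (val F L i (ch a x)) - Real.log (val F L j (ch a x)) ≤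
        (D + 1 + ε) * Real.log (hgt x) + K := by
  have hP0 : P ≠ 0 := by
    intro h
    rw [h] at hPa
    simp at hPa
  obtain ⟨b, c, hbc⟩ := exists_minor F L hij hNC hP0 hi hj
  have hPalg := alg_cross F L hL a hPa hF hi hj hbc
  obtain ⟨s1, s2, hs⟩ := choose_pair _ _ b c hbc
  set Y : Fin 3 → ℝ := fun b => if s1 then (gr F L P i b).re else (gr F L P i b).im with hY
  set X : Fin 3 → ℝ := fun b => if s2 then (gr F L P j b).re else (gr F L P j b).im with hX
  obtain ⟨ci, hci, hci'⟩ := cmp F L hF i P hi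
  obtain ⟨cj, hcj, -⟩ := cmp F L hF j P hj
  have hYle : ∀ η : Fin 3 → ℝ, |dt Y η| ≤ ‖∑ b, gr F L P i b * (η b : ℂ)‖ :=
    fun η => part_le (gr F L P i) s1 η
  have hXle : ∀ η : Fin 3 → ℝ, |dt X η| ≤ ‖∑ b, gr F L P j b * (η b : ℂ)‖ :=
    fun η => part_le (gr F L P j) s2 η
  have hYP : dt Y P = 0 := by
    have := hYle P
    rw [hci.orth, norm_zero] at this
    exact abs_eq_zero.1 (le_antisymm this (abs_nonneg _))
  have hXP : dt X P = 0 := by
    have := hXle P
    rw [hcj.orth, norm_zero] at this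
    exact abs_eq_zero.1 (le_antisymm this (abs_nonneg _))
  have hdet : (Matrix.of (M3 a Y X)).det ≠ 0 := by
    intro h
    apply hs
    exact M3_det a P Y X hPa hYP hXP h b c
  obtain ⟨C, hC, hback⟩ := back a P Y X hPa hYP hXP hdet
  obtain ⟨Z, C0, hZ, hC0, hsch⟩ := sch3 a Y X
    (fun b => part_alg _ (fun b => alg_gr F L hL hPalg i b) s1 b)
    (fun b => part_alg _ (fun b => alg_gr F L hL hPalg j b) s2 b) hdet ε hε
  obtain ⟨s0, K, hs0, hs01, hpair⟩ := pair_est D hD ε hε ci cj C C0 hci.nn hcj.nn hC hC0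
  refine ⟨Z, s0, K, hZ, hs0, hs01, fun x hx0 hxa hn hv hxZ hle => ?_⟩
  have hval : ∀ i, 0 < val F L i (ch a x) := by
    intro i
    have h3 := hv i
    rw [val_rv F L d hF a x hxa] at h3
    exact lt_of_le_of_ne (val_nonneg F L _ _) (Ne.symm (right_ne_zero_of_mul h3))
  have hcha : ch a x a = 1 := by
    unfold ch
    exact div_self (by exact_mod_cast hxa)
  refine hpair (val F L i (ch a x)) (val F L j (ch a x)) |dt Y (ch a x)| |dt X (ch a x)|
    ‖ch a x - P‖ (Real.log (hgt x)) (Real.log_nonneg (hgt_ge_one hx0)) (hval i) hle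
    (abs_nonneg _) (abs_nonneg _) (norm_nonneg _)
    ((hYle _).trans (hci.bd _ (hn.trans hs01))) ((hXle _).trans (hcj.bd _ (hn.trans hs01)))
    (hback _ hcha) hn (hsch x hx0 hxa hxZ) ?_
  rcases hci' with h | ⟨i', rfl⟩
  · exact Or.inl h
  · exact Or.inr (lower F L d hd hF a x hx0 hxa i' (hv _))

/-- the inequality near a crossing point -/
lemma double {D : ℕ} (hD : 2 ≤ D) (hd : ∀ i, d i ≤ D) (hF : ∀ i, (F i).IsHomogeneous (d i))
    (hL : ∀ j b, IsAlgebraic ℚ (L j b)) (hNC : NC F L) (ε : ℝ) (hε : 0 < ε)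
    (a : Fin 3) (P : Fin 3 → ℝ) (hPa : P a = 1) (i j : Fin q ⊕ Fin r) (hij : i ≠ j)
    (hi : val F L i P = 0) (hj : val F L j P = 0) :
    ∃ (Z : Finset (Fin 3 → ℤ)) (s0 K : ℝ), (∀ z ∈ Z, z ≠ 0) ∧ 0 < s0 ∧ s0 ≤ 1 ∧
      ∀ x : Fin 3 → ℤ, x ≠ 0 → x a ≠ 0 →
      ‖ch a x - P‖ ≤ s0 → (∀ i, val F L i (rv x) ≠ 0) → (∀ z ∈ Z, ∑ l, z l * x l ≠ 0) →
      - Real.log (val F L i (ch a x)) - Real.log (val F L j (ch a x)) ≤
        (D + 1 + ε) * Real.log (hgt x) + K := by
  classical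
  obtain ⟨Z1, s1, K1, hZ1, hs1, hs11, h1⟩ := double_aux F L d hD hd hF hL hNC ε hε a P hPa i j hij
    hi hj
  obtain ⟨Z2, s2, K2, hZ2, hs2, hs21, h2⟩ := double_aux F L d hD hd hF hL hNC ε hε a P hPa j i
    hij.symm hj hi
  refine ⟨Z1 ∪ Z2, min s1 s2, max K1 K2, ?_, lt_min hs1 hs2, (min_le_left _ _).trans hs11, ?_⟩
  · intro z hz
    rcases Finset.mem_union.1 hz with h | h
    · exact hZ1 z h
    · exact hZ2 z h
  intro x hx0 hxa hn hv hxZ
  rcases le_total (val F L i (ch a x)) (val F L j (ch a x)) with hle | hle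
  · have := h1 x hx0 hxa (hn.trans (min_le_left _ _)) hv
      (fun z hz => hxZ z (Finset.mem_union_left _ hz)) hle
    linarith [le_max_left K1 K2]
  · have := h2 x hx0 hxa (hn.trans (min_le_right _ _)) hv
      (fun z hz => hxZ z (Finset.mem_union_right _ hz)) hle
    linarith [le_max_right K1 K2]

/-- the inequality for the points with normalised coordinates in `U` -/
def LocOK (D : ℕ) (ε : ℝ) (U : Set (Fin 3 → ℝ)) : Prop :=
  ∃ (Z : Finset (Fin 3 → ℤ)) (C : ℝ), (∀ z ∈ Z, z ≠ 0) ∧ ∀ x : Fin 3 → ℤ, x ≠ 0 →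
    (fun j => (x j : ℝ) / hgt x) ∈ U → (∀ i, val F L i (rv x) ≠ 0) →
    (∀ z ∈ Z, ∑ l, z l * x l ≠ 0) →
    ∑ i, Real.log (hgt x ^ dg d r i / val F L i (rv x)) ≤ (D + 1 + ε) * Real.log (hgt x) + C

lemma loc {D : ℕ} (hD : 2 ≤ D) (hd : ∀ i, d i ≤ D) (hF : ∀ i, (F i).IsHomogeneous (d i))
    (hL : ∀ j b, IsAlgebraic ℚ (L j b)) (hNC : NC F L) (ε : ℝ) (hε : 0 < ε)
    (ξ : Fin 3 → ℝ) (hξ : ‖ξ‖ = 1) : ∃ U ∈ 𝓝 ξ, LocOK F L d D ε U := by
  classical
  obtain ⟨a, ha⟩ := Finite.exists_max fun j => |ξ j|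
  have hξa : |ξ a| = 1 := by
    apply le_antisymm
    · rw [← hξ, ← Real.norm_eq_abs]
      exact norm_le_pi_norm ξ a
    · rw [← hξ]
      exact (pi_norm_le_iff_of_nonneg (abs_nonneg _)).2 fun j => ha j
  have hξa0 : ξ a ≠ 0 := by
    intro h
    rw [h] at hξa
    simp at hξa
  set P : Fin 3 → ℝ := fun j => ξ j / ξ a with hP
  have hPa : P a = 1 := div_self hξa0
  have hP0 : P ≠ 0 := by
    intro h
    rw [h] at hPa
    simp at hPa
  have hD' : (2 : ℝ) ≤ D := by exact_mod_cast hD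
  -- the components through the point
  have hI : ∃ (Z : Finset (Fin 3 → ℤ)) (s0 K : ℝ), (∀ z ∈ Z, z ≠ 0) ∧ 0 < s0 ∧ s0 ≤ 1 ∧
      ∀ x : Fin 3 → ℤ, x ≠ 0 → x a ≠ 0 →
      ‖ch a x - P‖ ≤ s0 → (∀ i, val F L i (rv x) ≠ 0) → (∀ z ∈ Z, ∑ l, z l * x l ≠ 0) →
      ∑ i with val F L i P = 0, (- Real.log (val F L i (ch a x))) ≤
        (D + 1 + ε) * Real.log (hgt x) + K := by
    rcases Nat.lt_or_ge 2 (Finset.univ.filter fun i => val F L i P = 0).card with h3 | h3
    · exfalso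
      obtain ⟨i, j, k, hi, hj, hk, hij, hik, hjk⟩ := Finset.two_lt_card_iff.1 h3
      rw [Finset.mem_filter] at hi hj hk
      exact no_three F L hij hik hjk hF hNC hP0 hi.2 hj.2 hk.2
    · have h4 : (Finset.univ.filter fun i => val F L i P = 0).card = 0 ∨
        (Finset.univ.filter fun i => val F L i P = 0).card = 1 ∨
        (Finset.univ.filter fun i => val F L i P = 0).card = 2 := by omega
      rcases h4 with h4 | h4 | h4
      · rw [Finset.card_eq_zero] at h4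
        rw [h4]
        refine ⟨∅, 1, 0, by simp, one_pos, le_rfl, fun x hx0 _ _ _ _ => ?_⟩
        rw [Finset.sum_empty]
        have : 0 ≤ Real.log (hgt x) := Real.log_nonneg (hgt_ge_one hx0)
        positivity
      · rw [Finset.card_eq_one] at h4
        obtain ⟨i, hi⟩ := h4
        have hi0 : val F L i P = 0 := by
          have : i ∈ (Finset.univ.filter fun i => val F L i P = 0) := by rw [hi]; simp
          exact (Finset.mem_filter.1 this).2
        rw [hi]
        obtain ⟨Z, K, hZ, h⟩ := single F L d hD hd hF hL hNC ε hε a P hPa i hi0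
        refine ⟨Z, 1, K, hZ, one_pos, le_rfl, fun x hx0 hxa hn hv hxZ => ?_⟩
        rw [Finset.sum_singleton]
        exact h x hx0 hxa hn hv hxZ
      · rw [Finset.card_eq_two] at h4
        obtain ⟨i, j, hij, hi⟩ := h4
        have hi0 : val F L i P = 0 := by
          have : i ∈ (Finset.univ.filter fun i => val F L i P = 0) := by rw [hi]; simp
          exact (Finset.mem_filter.1 this).2
        have hj0 : val F L j P = 0 := by
          have : j ∈ (Finset.univ.filter fun i => val F L i P = 0) := by rw [hi]; simp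
          exact (Finset.mem_filter.1 this).2
        rw [hi]
        obtain ⟨Z, s0, K, hZ, hs0, hs01, h⟩ := double F L d hD hd hF hL hNC ε hε a P hPa i j hij
          hi0 hj0
        refine ⟨Z, s0, K, hZ, hs0, hs01, fun x hx0 hxa hn hv hxZ => ?_⟩
        rw [Finset.sum_pair hij]
        have := h x hx0 hxa hn hv hxZ
        linarith
  obtain ⟨Z, s0, K, hZ, hs0, hs01, hmain⟩ := hI
  -- the other components
  have hO : ∀ i : Fin q ⊕ Fin r, ∃ δ c : ℝ, 0 < δ ∧ 0 < c ∧ (val F L i P ≠ 0 →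
      ∀ η : Fin 3 → ℝ, ‖η - P‖ < δ → c ≤ val F L i η) := by
    intro i
    by_cases h : val F L i P = 0
    · exact ⟨1, 1, one_pos, one_pos, fun h' => absurd h h'⟩
    · have hpos : 0 < val F L i P := lt_of_le_of_ne (val_nonneg F L _ _) (Ne.symm h)
      have h1 := (val_cont F L i).continuousAt (x := P)
      have h2 := Metric.continuousAt_iff.1 h1 (val F L i P / 2) (by positivity)
      obtain ⟨δ, hδ, h3⟩ := h2
      refine ⟨δ, val F L i P / 2, hδ, by positivity, fun _ η hη => ?_⟩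
      have h4 := h3 (x := η) (by rwa [dist_eq_norm])
      rw [Real.dist_eq, abs_lt] at h4
      linarith
  choose δ c hδ hc hδc using hO
  obtain ⟨δ0, hδ0, hδ0'⟩ : ∃ δ0 : ℝ, 0 < δ0 ∧ ∀ i, δ0 ≤ δ i := by
    rcases isEmpty_or_nonempty (Fin q ⊕ Fin r) with he | hne
    · exact ⟨1, one_pos, fun i => (he.false i).elim⟩
    · obtain ⟨i0, hi0⟩ := Finite.exists_min δ
      exact ⟨δ i0, hδ i0, hi0⟩
  set ρ : ℝ := min s0 (δ0 / 2) with hρ
  have hρ0 : 0 < ρ := lt_min hs0 (by positivity)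
  -- the neighbourhood
  have hcont : ContinuousAt (fun ξ' : Fin 3 → ℝ => (fun j => ξ' j / ξ' a : Fin 3 → ℝ)) ξ := by
    rw [continuousAt_pi]
    intro j
    exact (continuous_apply j).continuousAt.div (continuous_apply a).continuousAt hξa0
  have hU1 : {ξ' : Fin 3 → ℝ | ‖(fun j => ξ' j / ξ' a : Fin 3 → ℝ) - P‖ < ρ} ∈ 𝓝 ξ := by
    have h1 := hcont (Metric.ball_mem_nhds P hρ0)
    filter_upwards [h1] with ξ' hξ'
    rw [Set.mem_preimage, Metric.mem_ball, dist_eq_norm] at hξ'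
    exact hξ'
  have hU2 : {ξ' : Fin 3 → ℝ | 1 / 2 < |ξ' a|} ∈ 𝓝 ξ := by
    have h1 : ContinuousAt (fun ξ' : Fin 3 → ℝ => |ξ' a|) ξ :=
      (continuous_apply a).abs.continuousAt
    have h2 := h1 (lt_mem_nhds (a := (1 : ℝ) / 2) (b := |ξ a|) (by rw [hξa]; norm_num))
    exact h2
  refine ⟨_, Filter.inter_mem hU1 hU2, Z, K + ∑ i : Fin q ⊕ Fin r, (dg d r i * Real.log 2) +
    ∑ i : Fin q ⊕ Fin r, |Real.log (c i)|, hZ, ?_⟩
  intro x hx0 hxU hv hxZ
  have hH := hgt_ge_one hx0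
  have hHp : 0 < hgt x := by linarith
  obtain ⟨hxU1, hxU2⟩ := hxU
  simp only [Set.mem_setOf_eq] at hxU1 hxU2
  have hxa2 : hgt x / 2 < |(x a : ℝ)| := by
    rw [abs_div, abs_of_pos hHp, lt_div_iff₀ hHp] at hxU2
    linarith
  have hxa : x a ≠ 0 := by
    intro h
    rw [h] at hxa2
    simp at hxa2
    linarith
  have hxap : 0 < |(x a : ℝ)| := abs_pos.2 (by exact_mod_cast hxa)
  have hch : (fun j => (x j : ℝ) / hgt x / ((x a : ℝ) / hgt x)) = ch a x := by
    funext j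
    unfold ch
    have : (x a : ℝ) ≠ 0 := by exact_mod_cast hxa
    field_simp
  rw [hch] at hxU1
  have hval : ∀ i, 0 < val F L i (ch a x) := by
    intro i
    have h3 := hv i
    rw [val_rv F L d hF a x hxa] at h3
    exact lt_of_le_of_ne (val_nonneg F L _ _) (Ne.symm (right_ne_zero_of_mul h3))
  have hlam : ∀ i, Real.log (hgt x ^ dg d r i / val F L i (rv x)) ≤
      dg d r i * Real.log 2 + (- Real.log (val F L i (ch a x))) := by
    intro i
    rw [val_rv F L d hF a x hxa, Real.log_div (pow_pos hHp _).ne'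
      (mul_pos (pow_pos hxap _) (hval i)).ne', Real.log_mul (pow_pos hxap _).ne' (hval i).ne',
      Real.log_pow, Real.log_pow]
    have h1 : Real.log (hgt x) ≤ Real.log 2 + Real.log |(x a : ℝ)| := by
      rw [← Real.log_mul (by norm_num) hxap.ne']
      apply Real.log_le_log hHp
      linarith
    have h2 : (0 : ℝ) ≤ dg d r i := Nat.cast_nonneg _
    nlinarith
  refine (Finset.sum_le_sum fun i _ => hlam i).trans ?_
  rw [Finset.sum_add_distrib]
  have hsplit : ∑ i, (- Real.log (val F L i (ch a x))) =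
      ∑ i with val F L i P = 0, (- Real.log (val F L i (ch a x))) +
      ∑ i with ¬ val F L i P = 0, (- Real.log (val F L i (ch a x))) :=
    (Finset.sum_filter_add_sum_filter_not _ _ _).symm
  rw [hsplit]
  have h1 := hmain x hx0 hxa (hxU1.le.trans (min_le_left _ _)) hv hxZ
  have h2 : ∑ i with ¬ val F L i P = 0, (- Real.log (val F L i (ch a x))) ≤
      ∑ i : Fin q ⊕ Fin r, |Real.log (c i)| := by
    refine (Finset.sum_le_sum fun i hi => ?_).trans
      (Finset.sum_le_sum_of_subset_of_nonneg (Finset.filter_subset _ _)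
        fun i _ _ => abs_nonneg (Real.log (c i)))
    have h3 := (Finset.mem_filter.1 hi).2
    have h4 := hδc i h3 (ch a x) (by
      have h5 := hxU1.trans_le (min_le_right s0 (δ0 / 2))
      have h6 := hδ0' i
      linarith)
    have h5 := Real.log_le_log (hc i) h4
    have h6 := neg_abs_le (Real.log (c i))
    linarith
  linarith

theorem main {D : ℕ} (hD : 2 ≤ D) (hd : ∀ i, d i ≤ D) (hF : ∀ i, (F i).IsHomogeneous (d i))
    (hL : ∀ j b, IsAlgebraic ℚ (L j b)) (hNC : NC F L) (ε : ℝ) (hε : 0 < ε) :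
    LocOK F L d D ε (Metric.sphere 0 1) := by
  classical
  refine IsCompact.induction_on (isCompact_sphere (0 : Fin 3 → ℝ) 1)
    (p := fun U => LocOK F L d D ε U) ?_ ?_ ?_ ?_
  · exact ⟨∅, 0, by simp, fun x _ hx => absurd hx (Set.notMem_empty _)⟩
  · rintro U V hUV ⟨Z, C, hZ, h⟩
    exact ⟨Z, C, hZ, fun x hx0 hxU => h x hx0 (hUV hxU)⟩
  · rintro U V ⟨Z1, C1, hZ1, h1⟩ ⟨Z2, C2, hZ2, h2⟩
    refine ⟨Z1 ∪ Z2, max C1 C2, ?_, ?_⟩
    · intro z hz
      rcases Finset.mem_union.1 hz with h | h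
      · exact hZ1 z h
      · exact hZ2 z h
    · intro x hx0 hxU hv hxZ
      rcases hxU with hxU | hxU
      · have := h1 x hx0 hxU hv (fun z hz => hxZ z (Finset.mem_union_left _ hz))
        linarith [le_max_left C1 C2]
      · have := h2 x hx0 hxU hv (fun z hz => hxZ z (Finset.mem_union_right _ hz))
        linarith [le_max_right C1 C2]
  · intro ξ hξ
    obtain ⟨U, hU, h⟩ := loc F L d hD hd hF hL hNC ε hε ξ (by simpa using hξ)
    exact ⟨U, mem_nhdsWithin_of_mem_nhds hU, h⟩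

lemma mem_sphere {n : ℕ} {x : Fin n → ℤ} (hx : x ≠ 0) :
    (fun j => (x j : ℝ) / hgt x) ∈ Metric.sphere (0 : Fin n → ℝ) 1 := by
  have hH := hgt_ge_one hx
  have hHp : 0 < hgt x := by linarith
  obtain ⟨j0, hj0⟩ := Function.ne_iff.1 hx
  have hne : Nonempty (Fin n) := ⟨j0⟩
  rw [mem_sphere_zero_iff_norm]
  apply le_antisymm
  · rw [pi_norm_le_iff_of_nonneg zero_le_one]
    intro j
    rw [Real.norm_eq_abs, abs_div, abs_of_pos hHp, div_le_one hHp]
    exact le_hgt x j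
  · obtain ⟨j, hj⟩ := exists_eq_ciSup_of_finite (f := fun j => |(x j : ℝ)|)
    have h1 := norm_le_pi_norm (fun j => (x j : ℝ) / hgt x) j
    rw [Real.norm_eq_abs, abs_div, abs_of_pos hHp] at h1
    have h2 : |(x j : ℝ)| = hgt x := hj
    rw [h2, div_self hHp.ne'] at h1
    exact h1

end

end Pool.Agent.Q13.CQ
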