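import Pool.Agent.Q13.CQ.Sch
import Pool.Agent.Q13.CQ.Alg
import Pool.Agent.Q13.AP.Prox

set_option autoImplicit false

/-!
Local analysis in the real plane.
-/

namespace Pool.Agent.Q13.CQ

open MvPolynomial Pool.Agent.W180.RR Pool.Agent.Q13.AP

/-- Taylor's formula with remainder of order two -/
lemma taylor {n : ℕ} (F : MvPolynomial (Fin n) ℤ) (P : Fin n → ℝ) : ∃ C : ℝ, 0 ≤ C ∧
    ∀ η : Fin n → ℝ, ‖η - P‖ ≤ 1 →
      |aeval η F - aeval P F - ∑ c, aeval P (pderiv c F) * (η c - P c)| ≤ C * ‖η - P‖ ^ 2 := by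
  induction F using MvPolynomial.induction_on with
  | C a => exact ⟨0, le_rfl, fun η _ => by simp⟩
  | add F G hF hG =>
    obtain ⟨C1, hC1, h1⟩ := hF
    obtain ⟨C2, hC2, h2⟩ := hG
    refine ⟨C1 + C2, by positivity, fun η hη => ?_⟩
    have e : aeval η (F + G) - aeval P (F + G) -
        ∑ c, aeval P (pderiv c (F + G)) * (η c - P c) =
        (aeval η F - aeval P F - ∑ c, aeval P (pderiv c F) * (η c - P c)) +
        (aeval η G - aeval P G - ∑ c, aeval P (pderiv c G) * (η c - P c)) := by
      simp only [map_add, add_mul, Finset.sum_add_distrib]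
      ring
    rw [e, add_mul]
    exact (abs_add_le _ _).trans (add_le_add (h1 η hη) (h2 η hη))
  | mul_X F j hF =>
    obtain ⟨C1, hC1, h1⟩ := hF
    refine ⟨C1 * (|P j| + 1) + ∑ c, |aeval P (pderiv c F)|, by positivity, fun η hη => ?_⟩
    have e : aeval η (F * X j) - aeval P (F * X j) -
        ∑ c, aeval P (pderiv c (F * X j)) * (η c - P c) =
        (aeval η F - aeval P F - ∑ c, aeval P (pderiv c F) * (η c - P c)) * η j +
        (∑ c, aeval P (pderiv c F) * (η c - P c)) * (η j - P j) := by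
      have e1 : ∑ c, aeval P (pderiv c (F * X j)) * (η c - P c) =
          (∑ c, aeval P (pderiv c F) * (η c - P c)) * P j + aeval P F * (η j - P j) := by
        have e2 : ∀ c, aeval P (pderiv c (F * X j)) * (η c - P c) =
            aeval P (pderiv c F) * (η c - P c) * P j +
              (if c = j then aeval P F * (η c - P c) else 0) := by
          intro c
          rw [pderiv_mul, map_add, map_mul, map_mul, aeval_X]
          by_cases h : c = j
          · subst h
            rw [pderiv_X_self, map_one, if_pos rfl]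
            ring
          · rw [pderiv_X_of_ne (Ne.symm h), map_zero, if_neg h]
            ring
        simp_rw [e2]
        rw [Finset.sum_add_distrib, Finset.sum_mul, Finset.sum_ite_eq' Finset.univ j,
          if_pos (Finset.mem_univ _)]
      rw [e1]
      simp only [map_mul, aeval_X]
      ring
    rw [e]
    have hj : |η j - P j| ≤ ‖η - P‖ := by
      have := norm_le_pi_norm (η - P) j
      simpa using this
    have hη' : |η j| ≤ |P j| + 1 := by
      have : |η j| ≤ |P j| + |η j - P j| := by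
        have := abs_add_le (P j) (η j - P j)
        rwa [add_sub_cancel] at this
      linarith
    have hlin : |∑ c, aeval P (pderiv c F) * (η c - P c)| ≤
        (∑ c, |aeval P (pderiv c F)|) * ‖η - P‖ := by
      rw [Finset.sum_mul]
      refine (Finset.abs_sum_le_sum_abs _ _).trans (Finset.sum_le_sum fun c _ => ?_)
      rw [abs_mul]
      apply mul_le_mul_of_nonneg_left _ (abs_nonneg _)
      have := norm_le_pi_norm (η - P) c
      simpa using this
    have h2 := h1 η hη
    refine (abs_add_le _ _).trans ?_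
    rw [abs_mul, abs_mul, add_mul]
    have h3 : 0 ≤ ‖η - P‖ := norm_nonneg _
    apply add_le_add
    · calc _ ≤ (C1 * ‖η - P‖ ^ 2) * (|P j| + 1) :=
            mul_le_mul h2 hη' (abs_nonneg _) (by positivity)
        _ = _ := by ring
    · calc _ ≤ ((∑ c, |aeval P (pderiv c F)|) * ‖η - P‖) * ‖η - P‖ :=
            mul_le_mul hlin hj (abs_nonneg _) (by positivity)
        _ = _ := by ring

/-- Euler's identity at a zero -/
lemma euler {n d : ℕ} {F : MvPolynomial (Fin n) ℤ} (hF : F.IsHomogeneous d) {P : Fin n → ℝ}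
    (hP : aeval P F = 0) : ∑ c, aeval P (pderiv c F) * P c = 0 := by
  have h := congrArg (aeval P) hF.sum_X_mul_pderiv
  rw [map_sum, map_nsmul, hP, smul_zero] at h
  rw [← h]
  refine Finset.sum_congr rfl fun c _ => ?_
  rw [map_mul, aeval_X, mul_comm]

/-- homogeneity -/
lemma aeval_hom {n d : ℕ} {F : MvPolynomial (Fin n) ℤ} (hF : F.IsHomogeneous d) (t : ℝ)
    (η : Fin n → ℝ) : aeval (fun j => t * η j) F = t ^ d * aeval η F := by
  rw [aeval_def, aeval_def, eval₂_eq', eval₂_eq', Finset.mul_sum]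
  refine Finset.sum_congr rfl fun m hm => ?_
  have h := hF (mem_support_iff.1 hm)
  rw [Finsupp.weight_apply, Finsupp.sum_fintype _ _ (by simp)] at h
  simp only [Pi.one_apply, smul_eq_mul, mul_one] at h
  simp_rw [mul_pow]
  rw [Finset.prod_mul_distrib, Finset.prod_pow_eq_pow_sum, h]
  ring

/-- the local data of a component with value `val` at the point `P` -/
structure Cmp {n : ℕ} (val : (Fin n → ℝ) → ℝ) (P : Fin n → ℝ) (c : ℝ) (G : Fin n → ℂ) : Prop where
  nn : 0 ≤ c
  orth : ∑ b, G b * (P b : ℂ) = 0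
  bd : ∀ η : Fin n → ℝ, ‖η - P‖ ≤ 1 → ‖∑ b, G b * (η b : ℂ)‖ ≤ val η + c * ‖η - P‖ ^ 2

lemma cmp_poly {n d : ℕ} {F : MvPolynomial (Fin n) ℤ} (hF : F.IsHomogeneous d) {P : Fin n → ℝ}
    (hP : aeval P F = 0) : ∃ c, Cmp (fun η => |aeval η F|) P c
      (fun b => ((aeval P (pderiv b F) : ℝ) : ℂ)) := by
  obtain ⟨C, hC, h⟩ := taylor F P
  have he := euler hF hP
  refine ⟨C, hC, ?_, fun η hη => ?_⟩
  · exact_mod_cast he
  · have h1 := h η hη
    have h2 : ∑ b, ((aeval P (pderiv b F) : ℝ) : ℂ) * (η b : ℂ) =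
        ((∑ c, aeval P (pderiv c F) * (η c - P c) : ℝ) : ℂ) := by
      simp only [mul_sub, Finset.sum_sub_distrib, he, sub_zero]
      push_cast
      rfl
    rw [h2, Complex.norm_real, Real.norm_eq_abs]
    rw [hP, sub_zero] at h1
    have h3 := abs_sub_abs_le_abs_sub (∑ c, aeval P (pderiv c F) * (η c - P c)) (aeval η F)
    rw [abs_sub_comm] at h3
    show _ ≤ |aeval η F| + _
    linarith

lemma cmp_lin {n : ℕ} (L : Fin n → ℂ) {P : Fin n → ℝ} (hP : ∑ b, L b * (P b : ℂ) = 0) :
    Cmp (fun η => ‖∑ b, L b * (η b : ℂ)‖) P 0 L :=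
  ⟨le_rfl, hP, fun η _ => by simp⟩

lemma alg_im {z : ℂ} (hz : IsAlgebraic ℚ z) : IsAlgebraic ℚ z.im := by
  have hI : IsAlgebraic ℚ Complex.I := by
    refine ⟨Polynomial.X ^ 2 + 1, ?_, by simp⟩
    have := Polynomial.monic_X_pow_add_C (R := ℚ) 1 (n := 2) (by norm_num)
    simpa using this.ne_zero
  have h1 : IsAlgebraic ℚ (-(Complex.I * z)) := (hI.mul hz).neg
  have h2 := alg_re h1
  have h3 : (-(Complex.I * z)).re = z.im := by simp
  rwa [h3] at h2

/-- the choice of real forms -/
lemma choose_pair {n : ℕ} (G1 G2 : Fin n → ℂ) (b c : Fin n) (h : G1 b * G2 c - G1 c * G2 b ≠ 0) :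
    ∃ s1 s2 : Bool, let Y : Fin n → ℝ := fun j => if s1 then (G1 j).re else (G1 j).im
      let X : Fin n → ℝ := fun j => if s2 then (G2 j).re else (G2 j).im
      Y b * X c - Y c * X b ≠ 0 := by
  by_contra hcon
  push Not at hcon
  apply h
  have h11 := hcon true true
  have h10 := hcon true false
  have h01 := hcon false true
  have h00 := hcon false false
  simp only [if_true, Bool.false_eq_true, if_false, ne_eq, not_not] at h11 h10 h01 h00
  apply Complex.ext
  · simp only [Complex.sub_re, Complex.mul_re, Complex.zero_re]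
    linarith
  · simp only [Complex.sub_im, Complex.mul_im, Complex.zero_im]
    linarith

/-- the chosen real form is bounded by the complex one -/
lemma part_le {n : ℕ} (G : Fin n → ℂ) (s : Bool) (η : Fin n → ℝ) :
    |∑ j, (if s then (G j).re else (G j).im) * η j| ≤ ‖∑ b, G b * (η b : ℂ)‖ := by
  cases s
  · have h : ∑ j, (if false then (G j).re else (G j).im) * η j = (∑ b, G b * (η b : ℂ)).im := by
      simp [Complex.im_sum]
    rw [h]
    exact Complex.abs_im_le_norm _
  · have h : ∑ j, (if true then (G j).re else (G j).im) * η j = (∑ b, G b * (η b : ℂ)).re := by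
      simp [Complex.re_sum]
    rw [h]
    exact Complex.abs_re_le_norm _

lemma part_alg {n : ℕ} (G : Fin n → ℂ) (hG : ∀ b, IsAlgebraic ℚ (G b)) (s : Bool) (b : Fin n) :
    IsAlgebraic ℚ (if s then (G b).re else (G b).im : ℝ) := by
  cases s
  · simpa using alg_im (hG b)
  · simpa using alg_re (hG b)

/-- the matrix of the coordinate `a` and two forms -/
def M3 {R : Type} [CommRing R] (a : Fin 3) (X Y : Fin 3 → R) : Fin 3 → Fin 3 → R :=
  ![fun j => if j = a then 1 else 0, X, Y]

lemma M3_det {R : Type} [CommRing R] (a : Fin 3) (P X Y : Fin 3 → R) (hPa : P a = 1)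
    (hX : ∑ b, X b * P b = 0) (hY : ∑ b, Y b * P b = 0)
    (h : (Matrix.of (M3 a X Y)).det = 0) (b c : Fin 3) : X b * Y c - X c * Y b = 0 := by
  rw [Fin.sum_univ_three] at hX hY
  fin_cases a <;> fin_cases b <;> fin_cases c <;>
    simp [M3, Matrix.det_fin_three] at h hPa hX hY ⊢ <;> grind

end Pool.Agent.Q13.CQ
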