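import Pool.Agent.Q13.CQ.Pair

set_option autoImplicit false

/-!
Vojta's inequality for divisors of curves in the plane at the archimedean place.
-/

namespace Pool.Agent.Q13.CQ

open MvPolynomial Pool.Agent.W180.RR Pool.Agent.Q13.AP Topology

section

variable {q r : ℕ} (F : Fin q → MvPolynomial (Fin 3) ℤ) (L : Fin r → Fin 3 → ℂ)

/-- the absolute value of a component at a real vector -/
noncomputable def val : Fin q ⊕ Fin r → (Fin 3 → ℝ) → ℝ
  | Sum.inl i => fun η => |aeval η (F i)|
  | Sum.inr j => fun η => ‖∑ b, L j b * (η b : ℂ)‖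

/-- the gradient of a component -/
noncomputable def gr (P : Fin 3 → ℝ) : Fin q ⊕ Fin r → Fin 3 → ℂ
  | Sum.inl i => fun b => ((aeval P (pderiv b (F i)) : ℝ) : ℂ)
  | Sum.inr j => L j

/-- the degrees -/
def dg (d : Fin q → ℕ) (r : ℕ) : Fin q ⊕ Fin r → ℕ
  | Sum.inl i => d i
  | Sum.inr _ => 1

/-- normal crossings at the real points -/
def NC : Prop := ∀ P : Fin 3 → ℝ, P ≠ 0 →
  LinearIndependent ℂ (fun i : {i : Fin q ⊕ Fin r // val F L i P = 0} => gr F L P i.1)

lemma val_nonneg (i : Fin q ⊕ Fin r) (η : Fin 3 → ℝ) : 0 ≤ val F L i η := by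
  rcases i with i | j
  · exact abs_nonneg _
  · exact norm_nonneg _

lemma val_cont (i : Fin q ⊕ Fin r) : Continuous (val F L i) := by
  rcases i with i | j
  · have : val F L (Sum.inl i) = fun η : Fin 3 → ℝ =>
        |MvPolynomial.eval η (MvPolynomial.map (Int.castRingHom ℝ) (F i))| := by
      funext η
      show |aeval η (F i)| = _
      rw [MvPolynomial.eval_map]
      rfl
    rw [this]
    exact (MvPolynomial.continuous_eval _).abs
  · show Continuous fun η : Fin 3 → ℝ => ‖∑ b, L j b * (η b : ℂ)‖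
    fun_prop

lemma val_smul {d : Fin q → ℕ} (hF : ∀ i, (F i).IsHomogeneous (d i)) (i : Fin q ⊕ Fin r) (t : ℝ)
    (η : Fin 3 → ℝ) : val F L i (fun b => t * η b) = |t| ^ (dg d r i) * val F L i η := by
  rcases i with i | j
  · show |aeval (fun b => t * η b) (F i)| = _
    rw [aeval_hom (hF i), abs_mul, abs_pow]
    rfl
  · show ‖∑ b, L j b * ((t * η b : ℝ) : ℂ)‖ = |t| ^ 1 * ‖∑ b, L j b * (η b : ℂ)‖
    have : ∑ b, L j b * ((t * η b : ℝ) : ℂ) = (t : ℂ) * ∑ b, L j b * (η b : ℂ) := by
      rw [Finset.mul_sum]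
      refine Finset.sum_congr rfl fun b _ => ?_
      push_cast
      ring
    rw [this, norm_mul, Complex.norm_real, Real.norm_eq_abs, pow_one]

lemma cmp {d : Fin q → ℕ} (hF : ∀ i, (F i).IsHomogeneous (d i)) (i : Fin q ⊕ Fin r)
    (P : Fin 3 → ℝ) (h : val F L i P = 0) : ∃ c, Cmp (val F L i) P c (gr F L P i) ∧
      (c = 0 ∨ ∃ i', i = Sum.inl i') := by
  rcases i with i | j
  · obtain ⟨c, hc⟩ := cmp_poly (hF i) (P := P) (abs_eq_zero.1 h)
    exact ⟨c, hc, Or.inr ⟨i, rfl⟩⟩
  · exact ⟨0, cmp_lin (L j) (norm_eq_zero.1 h), Or.inl rfl⟩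

/-- the algebraic numbers in `ℂ` -/
noncomputable abbrev Qb : IntermediateField ℚ ℂ := algebraicClosure ℚ ℂ

variable (hL : ∀ j b, IsAlgebraic ℚ (L j b))

/-- the polynomials over the algebraic numbers -/
noncomputable def pol : Fin q ⊕ Fin r → MvPolynomial (Fin 3) Qb
  | Sum.inl i => MvPolynomial.map (algebraMap ℤ Qb) (F i)
  | Sum.inr j => ∑ b, C ⟨L j b, by rw [mem_algebraicClosure_iff]; exact hL j b⟩ * X b

/-- the complex vector -/
noncomputable def cx (P : Fin 3 → ℝ) : Fin 3 → ℂ := fun b => (P b : ℂ)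

lemma aeval_cx (G : MvPolynomial (Fin 3) ℤ) (P : Fin 3 → ℝ) :
    aeval (cx P) G = ((aeval P G : ℝ) : ℂ) := by
  have h := MvPolynomial.comp_aeval_apply (R := ℤ) P (Complex.ofRealHom.toIntAlgHom) G
  have h1 : (Complex.ofRealHom.toIntAlgHom : ℝ →ₐ[ℤ] ℂ) (aeval P G) = ((aeval P G : ℝ) : ℂ) := rfl
  rw [← h1, h]
  rfl

lemma pol_val (i : Fin q ⊕ Fin r) (P : Fin 3 → ℝ) :
    ‖aeval (cx P) (pol F L hL i)‖ = val F L i P := by
  rcases i with i | j
  · show ‖aeval (cx P) (MvPolynomial.map (algebraMap ℤ Qb) (F i))‖ = |aeval P (F i)|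
    rw [MvPolynomial.aeval_map_algebraMap, aeval_cx, Complex.norm_real, Real.norm_eq_abs]
  · show ‖aeval (cx P) (∑ b, C _ * X b)‖ = _
    rw [map_sum]
    simp only [map_mul, aeval_C, aeval_X]
    rfl

lemma pol_gr (i : Fin q ⊕ Fin r) (P : Fin 3 → ℝ) (b : Fin 3) :
    aeval (cx P) (pderiv b (pol F L hL i)) = gr F L P i b := by
  rcases i with i | j
  · show aeval (cx P) (pderiv b (MvPolynomial.map (algebraMap ℤ Qb) (F i))) = _
    rw [MvPolynomial.pderiv_map, MvPolynomial.aeval_map_algebraMap, aeval_cx]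
    rfl
  · show aeval (cx P) (pderiv b (∑ b, C _ * X b)) = L j b
    rw [map_sum, map_sum]
    have : ∀ c : Fin 3, aeval (cx P) (pderiv b ((C ⟨L j c, by
        rw [mem_algebraicClosure_iff]; exact hL j c⟩ : MvPolynomial (Fin 3) Qb) * X c)) =
        if c = b then L j c else 0 := by
      intro c
      rw [pderiv_C_mul]
      by_cases h : c = b
      · subst h
        rw [pderiv_X_self, if_pos rfl, mul_one, aeval_C]
        rfl
      · rw [pderiv_X_of_ne h, mul_zero, map_zero, if_neg h]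
    rw [Finset.sum_congr rfl fun c _ => this c, Finset.sum_ite_eq' Finset.univ b,
      if_pos (Finset.mem_univ _)]

/-- the determinant of the complex gradients at a crossing point -/
lemma exists_minor {P : Fin 3 → ℝ} {i j : Fin q ⊕ Fin r} (hij : i ≠ j) (hNC : NC F L) (hP : P ≠ 0)
    (hi : val F L i P = 0) (hj : val F L j P = 0) :
    ∃ b c, gr F L P i b * gr F L P j c - gr F L P i c * gr F L P j b ≠ 0 := by
  by_contra hcon
  push Not at hcon
  have h1 := hNC P hP
  have h2 : LinearIndependent ℂ ![gr F L P i, gr F L P j] := by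
    have hinj : Function.Injective (![⟨i, hi⟩, ⟨j, hj⟩] : Fin 2 →
        {i : Fin q ⊕ Fin r // val F L i P = 0}) := by
      intro a b hab
      fin_cases a <;> fin_cases b <;> simp at hab ⊢
      · exact hij hab
      · exact hij hab.symm
    have h3 := h1.comp _ hinj
    have h4 : (fun i : {i : Fin q ⊕ Fin r // val F L i P = 0} => gr F L P i.1) ∘
        (![⟨i, hi⟩, ⟨j, hj⟩] : Fin 2 → {i : Fin q ⊕ Fin r // val F L i P = 0}) =
        ![gr F L P i, gr F L P j] := by
      funext a
      fin_cases a <;> rfl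
    rwa [h4] at h3
  rw [LinearIndependent.pair_iff] at h2
  -- all minors vanish
  have h3 : gr F L P i ≠ 0 := by
    intro h
    have := h2 1 0 (by rw [h]; simp)
    exact one_ne_zero this.1
  obtain ⟨b, hb⟩ := Function.ne_iff.1 h3
  have h4 := h2 (gr F L P j b) (- gr F L P i b) (by
    funext c
    have := hcon b c
    simp only [Pi.add_apply, Pi.smul_apply, smul_eq_mul, Pi.zero_apply]
    linear_combination -this)
  exact hb (neg_eq_zero.1 h4.2)

/-- at most two components pass through a point -/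
lemma no_three {P : Fin 3 → ℝ} {i j k : Fin q ⊕ Fin r} (hij : i ≠ j) (hik : i ≠ k) (hjk : j ≠ k)
    {d : Fin q → ℕ} (hF : ∀ i, (F i).IsHomogeneous (d i)) (hNC : NC F L) (hP : P ≠ 0)
    (hi : val F L i P = 0) (hj : val F L j P = 0) (hk : val F L k P = 0) : False := by
  have h1 := hNC P hP
  let e : Fin 3 → {i : Fin q ⊕ Fin r // val F L i P = 0} := ![⟨i, hi⟩, ⟨j, hj⟩, ⟨k, hk⟩]
  have hinj : Function.Injective e := by
    intro a b hab
    have hab' := congrArg Subtype.val hab
    fin_cases a <;> fin_cases b <;> simp [e] at hab' ⊢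
    · exact hij hab'
    · exact hik hab'
    · exact hij hab'.symm
    · exact hjk hab'
    · exact hik hab'.symm
    · exact hjk hab'.symm
  have h3 := h1.comp _ hinj
  have h4 : IsUnit (Matrix.of fun a : Fin 3 => gr F L P (e a).1) :=
    Matrix.linearIndependent_rows_iff_isUnit.1 h3
  have h5 : (Matrix.of fun a : Fin 3 => gr F L P (e a).1).mulVec (cx P) = 0 := by
    funext a
    obtain ⟨c, hc, -⟩ := cmp F L hF (e a).1 P (e a).2
    exact hc.orth
  have h6 := Matrix.mulVec_injective_iff_isUnit.2 h4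
  have h7 : cx P = 0 := h6 (by rw [h5, Matrix.mulVec_zero])
  apply hP
  funext b
  have := congrFun h7 b
  simpa [cx] using this

include hL in
/-- crossing points are algebraic -/
lemma alg_cross {P : Fin 3 → ℝ} {i j : Fin q ⊕ Fin r} (a : Fin 3) (hPa : P a = 1)
    {d : Fin q → ℕ} (hF : ∀ i, (F i).IsHomogeneous (d i))
    (hi : val F L i P = 0) (hj : val F L j P = 0) {b c : Fin 3}
    (hbc : gr F L P i b * gr F L P j c - gr F L P i c * gr F L P j b ≠ 0) :
    ∀ b, IsAlgebraic ℚ (P b) := by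
  have hdet : (Matrix.of (M3 a (gr F L P i) (gr F L P j))).det ≠ 0 := by
    intro h
    obtain ⟨ci, hci, -⟩ := cmp F L hF i P hi
    obtain ⟨cj, hcj, -⟩ := cmp F L hF j P hj
    apply hbc
    exact M3_det a (cx P) _ _ (by show ((P a : ℝ) : ℂ) = 1; rw [hPa]; simp) hci.orth hcj.orth h b c
  have h1 := alg_point (k := Qb) (cx P) ![X a - 1, pol F L hL i, pol F L hL j] (by
    intro t
    fin_cases t
    · show aeval (cx P) (X a - 1) = 0
      rw [map_sub, aeval_X, map_one]
      simp [cx, hPa]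
    · show aeval (cx P) (pol F L hL i) = 0
      rw [← norm_eq_zero, pol_val, hi]
    · show aeval (cx P) (pol F L hL j) = 0
      rw [← norm_eq_zero, pol_val, hj]) (by
    have e : (Matrix.of fun t s => aeval (cx P) (pderiv s
        ((![X a - 1, pol F L hL i, pol F L hL j] : Fin 3 → MvPolynomial (Fin 3) Qb) t))) =
        Matrix.of (M3 a (gr F L P i) (gr F L P j)) := by
      ext t s
      fin_cases t
      · show aeval (cx P) (pderiv s (X a - 1 : MvPolynomial (Fin 3) Qb)) = if s = a then 1 else 0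
        rw [map_sub, pderiv_one, sub_zero, pderiv_X]
        by_cases h : s = a
        · subst h
          simp
        · rw [if_neg h, Pi.single_eq_of_ne (by tauto)]
          simp
      · exact pol_gr F L hL i P s
      · exact pol_gr F L hL j P s
    rw [e]
    exact hdet)
  intro b
  have h2 := h1 b
  have h3 : IsAlgebraic ℚ (cx P b) := by
    have : Algebra.IsAlgebraic ℚ Qb := algebraicClosure.isAlgebraic ℚ ℂ
    exact h2.restrictScalars ℚ
  exact (isAlgebraic_algebraMap_iff (R := ℚ) (S := ℝ) (A := ℂ) (algebraMap ℝ ℂ).injective).1 h3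

lemma alg_aeval {P : Fin 3 → ℝ} (hP : ∀ b, IsAlgebraic ℚ (P b)) (G : MvPolynomial (Fin 3) ℤ) :
    IsAlgebraic ℚ (aeval P G) := by
  induction G using MvPolynomial.induction_on with
  | C a =>
    rw [aeval_C]
    have := isAlgebraic_algebraMap (R := ℚ) (A := ℝ) (a : ℚ)
    simpa using this
  | add F G hF hG =>
    rw [map_add]
    exact hF.add hG
  | mul_X F j hF =>
    rw [map_mul, aeval_X]
    exact hF.mul (hP j)

include hL in
lemma alg_gr {P : Fin 3 → ℝ} (hP : ∀ b, IsAlgebraic ℚ (P b)) (i : Fin q ⊕ Fin r) (b : Fin 3) :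
    IsAlgebraic ℚ (gr F L P i b) := by
  rcases i with i | j
  · have := (alg_aeval hP (pderiv b (F i))).algHom (Complex.ofRealAm.restrictScalars ℚ)
    exact this
  · exact hL j b

end

end Pool.Agent.Q13.CQ
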