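import Pool.Agent.Q13.CQ.Loc

set_option autoImplicit false

/-!
The estimates at a crossing point.
-/

namespace Pool.Agent.Q13.CQ

open MvPolynomial Pool.Agent.W180.RR Pool.Agent.Q13.AP

/-- the value of a form at a real vector -/
noncomputable def dt {n : ℕ} (X : Fin n → ℝ) (η : Fin n → ℝ) : ℝ := ∑ b, X b * η b

/-- the distance to the point is bounded by the values of two independent forms -/
lemma back (a : Fin 3) (P X Y : Fin 3 → ℝ) (hPa : P a = 1) (hX : dt X P = 0) (hY : dt Y P = 0)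
    (h : (Matrix.of (M3 a X Y)).det ≠ 0) : ∃ C : ℝ, 0 ≤ C ∧ ∀ η : Fin 3 → ℝ, η a = 1 →
      ‖η - P‖ ≤ C * (|dt X η| + |dt Y η|) := by
  set M := Matrix.of (M3 a X Y) with hM
  refine ⟨∑ j, ∑ k, |M⁻¹ j k|, by positivity, fun η hη => ?_⟩
  set v := η - P with hv
  have h1 : M⁻¹.mulVec (M.mulVec v) = v := by
    rw [Matrix.mulVec_mulVec, Matrix.nonsing_inv_mul _ (isUnit_iff_ne_zero.2 h), Matrix.one_mulVec]
  have h0 : M.mulVec v 0 = 0 := by
    simp [hM, M3, Matrix.mulVec, dotProduct, hv, hη, hPa]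
  have hd : ∀ Z : Fin 3 → ℝ, dt Z P = 0 → ∑ b, Z b * v b = dt Z η := by
    intro Z hZ
    unfold dt at hZ ⊢
    simp only [hv, Pi.sub_apply, mul_sub, Finset.sum_sub_distrib, hZ, sub_zero]
  have h2 : M.mulVec v 1 = dt X η := by
    rw [← hd X hX]
    rfl
  have h3 : M.mulVec v 2 = dt Y η := by
    rw [← hd Y hY]
    rfl
  have hk : ∀ k, |M.mulVec v k| ≤ |dt X η| + |dt Y η| := by
    intro k
    fin_cases k
    · show |M.mulVec v 0| ≤ _
      rw [h0, abs_zero]
      positivity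
    · show |M.mulVec v 1| ≤ _
      rw [h2]
      linarith [abs_nonneg (dt Y η)]
    · show |M.mulVec v 2| ≤ _
      rw [h3]
      linarith [abs_nonneg (dt X η)]
  rw [pi_norm_le_iff_of_nonneg (by positivity)]
  intro j
  rw [Real.norm_eq_abs]
  calc |v j| = |M⁻¹.mulVec (M.mulVec v) j| := by rw [h1]
    _ = |∑ k, M⁻¹ j k * M.mulVec v k| := rfl
    _ ≤ ∑ k, |M⁻¹ j k| * (|dt X η| + |dt Y η|) := by
        refine (Finset.abs_sum_le_sum_abs _ _).trans (Finset.sum_le_sum fun k _ => ?_)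
        rw [abs_mul]
        exact mul_le_mul_of_nonneg_left (hk k) (abs_nonneg _)
    _ = (∑ k, |M⁻¹ j k|) * (|dt X η| + |dt Y η|) := by rw [Finset.sum_mul]
    _ ≤ _ := by
        apply mul_le_mul_of_nonneg_right _ (by positivity)
        exact Finset.single_le_sum (f := fun j => ∑ k, |M⁻¹ j k|)
          (fun i _ => Finset.sum_nonneg fun j _ => abs_nonneg _) (Finset.mem_univ j)

/-- the point of the chart -/
noncomputable def ch (a : Fin 3) (x : Fin 3 → ℤ) : Fin 3 → ℝ := fun j => (x j : ℝ) / (x a : ℝ)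

lemma dt_ch (a : Fin 3) (x : Fin 3 → ℤ) (X : Fin 3 → ℝ) (hx : x a ≠ 0) :
    lf X x = (x a : ℝ) * dt X (ch a x) := by
  have hx' : (x a : ℝ) ≠ 0 := by exact_mod_cast hx
  unfold lf dt ch
  rw [Finset.mul_sum]
  refine Finset.sum_congr rfl fun j _ => ?_
  field_simp

/-- the subspace theorem in a chart of the plane -/
lemma sch3 (a : Fin 3) (X Y : Fin 3 → ℝ) (hX : ∀ b, IsAlgebraic ℚ (X b))
    (hY : ∀ b, IsAlgebraic ℚ (Y b)) (h : (Matrix.of (M3 a X Y)).det ≠ 0) (ε : ℝ) (hε : 0 < ε) :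
    ∃ (Z : Finset (Fin 3 → ℤ)) (C : ℝ), (∀ z ∈ Z, z ≠ 0) ∧ 0 < C ∧ ∀ x : Fin 3 → ℤ, x ≠ 0 →
      x a ≠ 0 → (∀ z ∈ Z, ∑ l, z l * x l ≠ 0) →
      Real.exp (-(3 + ε) * Real.log (hgt x)) ≤
        C * (|dt X (ch a x)| * |dt Y (ch a x)|) := by
  obtain ⟨Z, C, hZ, hC, hx⟩ := schmidt (n := 3) (by norm_num) (M3 a X Y) (by
    intro i j
    fin_cases i
    · show IsAlgebraic ℚ (if j = a then (1 : ℝ) else 0)
      split_ifs
      · exact isAlgebraic_one
      · exact isAlgebraic_zero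
    · exact hX j
    · exact hY j) h ε hε
  refine ⟨Z, C, hZ, hC, fun x hx0 hxa hxZ => ?_⟩
  have h1 := hx x hx0 hxZ
  rw [Fin.prod_univ_three] at h1
  have e0 : lf (M3 a X Y 0) x = x a := by
    simp [lf, M3]
  have e1 : lf (M3 a X Y 1) x = (x a : ℝ) * dt X (ch a x) := dt_ch a x X hxa
  have e2 : lf (M3 a X Y 2) x = (x a : ℝ) * dt Y (ch a x) := dt_ch a x Y hxa
  rw [e0, e1, e2, abs_mul, abs_mul] at h1
  have hH := hgt_ge_one hx0
  have hHp : 0 < hgt x := by linarith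
  have hxa' : |(x a : ℝ)| ≤ hgt x := le_hgt x a
  have h2 : |(x a : ℝ)| * (|(x a : ℝ)| * |dt X (ch a x)|) * (|(x a : ℝ)| * |dt Y (ch a x)|) ≤
      hgt x ^ 3 * (|dt X (ch a x)| * |dt Y (ch a x)|) := by
    have : |(x a : ℝ)| ^ 3 ≤ hgt x ^ 3 := pow_le_pow_left₀ (abs_nonneg _) hxa' 3
    have h3 := mul_le_mul_of_nonneg_right this
      (mul_nonneg (abs_nonneg (dt X (ch a x))) (abs_nonneg (dt Y (ch a x))))
    calc _ = |(x a : ℝ)| ^ 3 * (|dt X (ch a x)| * |dt Y (ch a x)|) := by ring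
      _ ≤ _ := h3
  have h3 : hgt x ^ (-ε) ≤ C * (hgt x ^ 3 * (|dt X (ch a x)| * |dt Y (ch a x)|)) :=
    h1.trans (mul_le_mul_of_nonneg_left h2 hC.le)
  have h4 : Real.exp (-(3 + ε) * Real.log (hgt x)) = hgt x ^ (-ε) / hgt x ^ 3 := by
    rw [Real.rpow_def_of_pos hHp, ← Real.exp_log (pow_pos hHp 3), ← Real.exp_sub, Real.log_pow]
    congr 1
    push_cast
    ring
  rw [h4, div_le_iff₀ (pow_pos hHp 3)]
  linarith

/-- the inequality between the two local heights -/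
lemma pair_est (D : ℕ) (hD : 2 ≤ D) (ε : ℝ) (hε : 0 < ε) (c1 c2 C C0 : ℝ) (hc1 : 0 ≤ c1)
    (hc2 : 0 ≤ c2) (hC : 0 ≤ C) (hC0 : 0 < C0) : ∃ s0 K : ℝ, 0 < s0 ∧ s0 ≤ 1 ∧
      ∀ A B U V s h : ℝ, 0 ≤ h → 0 < A → A ≤ B → 0 ≤ U → 0 ≤ V → 0 ≤ s →
        U ≤ A + c1 * s ^ 2 → V ≤ B + c2 * s ^ 2 →
        s ≤ C * (U + V) → s ≤ s0 → Real.exp (-(3 + ε) * h) ≤ C0 * (U * V) →
        (c1 = 0 ∨ Real.exp (-(D * h)) ≤ A) →
        - Real.log A - Real.log B ≤ (D + 1 + ε) * h + K := by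
  set s0 : ℝ := 1 / (2 * C * (c1 + c2) + 1) with hs0
  have hden : 0 < 2 * C * (c1 + c2) + 1 := by positivity
  set K1 : ℝ := 1 + 4 * C * c2 with hK1
  set K2 : ℝ := 16 * C ^ 2 * c1 with hK2
  have hK1p : 0 < K1 := by positivity
  have hK2p : 0 ≤ K2 := by positivity
  set W : ℝ := 2 * K1 * (K2 + 1) * C0 with hW
  have hWp : 0 < W := by positivity
  refine ⟨s0, |Real.log W|, by positivity, ?_, ?_⟩
  · rw [hs0, div_le_one hden]
    have : 0 ≤ 2 * C * (c1 + c2) := by positivity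
    linarith
  intro A B U V s h hh hA hAB hU hV hs hUA hVB hsC hss0 hexp hor
  have hB : 0 < B := lt_of_lt_of_le hA hAB
  have hs01 : s0 ≤ 1 := by
    rw [hs0, div_le_one hden]
    have : 0 ≤ 2 * C * (c1 + c2) := by positivity
    linarith
  -- the distance
  have h1 : s ≤ 4 * C * B := by
    have h2 : s ≤ C * (A + B + (c1 + c2) * s ^ 2) := by
      refine hsC.trans (mul_le_mul_of_nonneg_left ?_ hC)
      nlinarith
    have h3 : C * ((c1 + c2) * s ^ 2) ≤ s / 2 := by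
      have h4 : C * (c1 + c2) * s ≤ 1 / 2 := by
        have h5 : C * (c1 + c2) * s ≤ C * (c1 + c2) * s0 :=
          mul_le_mul_of_nonneg_left hss0 (by positivity)
        have h6 : C * (c1 + c2) * s0 ≤ 1 / 2 := by
          rw [hs0, mul_one_div, div_le_iff₀ hden]
          linarith
        linarith
      calc C * ((c1 + c2) * s ^ 2) = (C * (c1 + c2) * s) * s := by ring
        _ ≤ 1 / 2 * s := mul_le_mul_of_nonneg_right h4 hs
        _ = s / 2 := by ring
    have h7 : C * A ≤ C * B := mul_le_mul_of_nonneg_left hAB hC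
    nlinarith
  have hs2 : s ^ 2 ≤ s * (4 * C * B) := by
    rw [sq]
    exact mul_le_mul_of_nonneg_left h1 hs
  have hV' : V ≤ K1 * B := by
    have h2 : s ^ 2 ≤ 4 * C * B := by
      have : s ≤ 1 := hss0.trans hs01
      nlinarith
    have h3 := mul_le_mul_of_nonneg_left h2 hc2
    rw [hK1]
    nlinarith
  have hU' : U ≤ A + K2 * B ^ 2 := by
    have h2 : s ^ 2 ≤ (4 * C * B) ^ 2 := pow_le_pow_left₀ hs h1 2
    have h3 := mul_le_mul_of_nonneg_left h2 hc1
    rw [hK2]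
    nlinarith
  have hUV : Real.exp (-(3 + ε) * h) ≤ C0 * ((A + K2 * B ^ 2) * (K1 * B)) := by
    refine hexp.trans (mul_le_mul_of_nonneg_left ?_ hC0.le)
    exact mul_le_mul hU' hV' hV (by positivity)
  -- the case of a product
  have hcase1 : Real.exp (-(3 + ε) * h) ≤ W * (A * B) →
      - Real.log A - Real.log B ≤ (D + 1 + ε) * h + |Real.log W| := by
    intro h2
    have h3 := Real.log_le_log (Real.exp_pos _) h2
    rw [Real.log_exp, Real.log_mul hWp.ne' (mul_pos hA hB).ne', Real.log_mul hA.ne' hB.ne'] at h3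
    have h4 := le_abs_self (Real.log W)
    have h5 : (2 : ℝ) ≤ D := by exact_mod_cast hD
    nlinarith
  rcases hor with h0 | hAge
  · apply hcase1
    refine hUV.trans ?_
    have hK20 : K2 = 0 := by rw [hK2, h0]; ring
    rw [hW, hK20]
    have : 0 ≤ C0 * K1 * (A * B) := by positivity
    nlinarith
  · by_cases hcmp : K2 * B ^ 2 ≤ A
    · apply hcase1
      refine hUV.trans ?_
      rw [hW]
      have h2 : (A + K2 * B ^ 2) * (K1 * B) ≤ (2 * A) * (K1 * B) :=
        mul_le_mul_of_nonneg_right (by linarith) (by positivity)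
      have h3 : C0 * ((A + K2 * B ^ 2) * (K1 * B)) ≤ C0 * ((2 * A) * (K1 * B)) :=
        mul_le_mul_of_nonneg_left h2 hC0.le
      refine h3.trans ?_
      have h4 : 0 ≤ 2 * K1 * K2 * C0 * (A * B) := by positivity
      nlinarith
    · push Not at hcmp
      have h2 : Real.exp (-(3 + ε) * h) ≤ W * B ^ 3 := by
        refine hUV.trans ?_
        rw [hW]
        have h2 : (A + K2 * B ^ 2) * (K1 * B) ≤ (2 * (K2 * B ^ 2)) * (K1 * B) :=
          mul_le_mul_of_nonneg_right (by linarith) (by positivity)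
        have h3 := mul_le_mul_of_nonneg_left h2 hC0.le
        refine h3.trans ?_
        have h4 : 0 ≤ 2 * K1 * C0 * B ^ 3 := by positivity
        nlinarith
      have h3 := Real.log_le_log (Real.exp_pos _) h2
      rw [Real.log_exp, Real.log_mul hWp.ne' (pow_pos hB 3).ne', Real.log_pow] at h3
      have h4 := Real.log_le_log (Real.exp_pos _) hAge
      rw [Real.log_exp] at h4
      have h5 := le_abs_self (Real.log W)
      have h6 : 0 ≤ |Real.log W| := abs_nonneg _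
      push_cast at h3
      nlinarith

end Pool.Agent.Q13.CQ
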