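import Pool.Agent.Q13.AP.Sch

set_option autoImplicit false

/-!
Schmidt's subspace theorem for real algebraic forms at the archimedean place of `ℚ`, in product
form, from the library subspace theorem.
-/

namespace Pool.Agent.Q13.CQ

open Finset Filter Topology Pool.Agent.TH286.GT Pool.Agent.W180.RR Pool.Agent.Q13.AP

/-- the value of a real linear form at an integer vector -/
noncomputable def lf {n : ℕ} (L : Fin n → ℝ) (x : Fin n → ℤ) : ℝ := ∑ j, L j * (x j : ℝ)

lemma lf_le {n : ℕ} (L : Fin n → ℝ) (x : Fin n → ℤ) : |lf L x| ≤ (∑ j, |L j|) * hgt x := by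
  unfold lf
  rw [Finset.sum_mul]
  refine (Finset.abs_sum_le_sum_abs _ _).trans (Finset.sum_le_sum fun j _ => ?_)
  rw [abs_mul]
  exact mul_le_mul_of_nonneg_left (le_hgt x j) (abs_nonneg _)

theorem no_seq {n : ℕ} (hn : 2 ≤ n) (L : Fin n → Fin n → ℝ)
    (hL : ∀ i j, IsAlgebraic ℚ (L i j)) (hdet : (Matrix.of L).det ≠ 0)
    (ε : ℝ) (hε : 0 < ε) (x : ℕ → Fin n → ℤ) (hx : ∀ t, x t ≠ 0)
    (e : ℕ → Fin n → ℤ) (he : ∀ z : Fin n → ℤ, z ≠ 0 → ∃ j, e j = z)
    (hoff : ∀ t, ∀ j ≤ t, ∑ l, e j l * x t l ≠ 0)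
    (hN : Tendsto (fun t => Real.log (hgt (x t))) atTop atTop)
    (hsm : ∀ t : ℕ, (t : ℝ) * ∏ i, |lf (L i) (x t)| < hgt (x t) ^ (-ε)) : False := by
  classical
  have hC : Tendsto (fun t : ℕ => (t : ℝ)) atTop atTop := tendsto_natCast_atTop_atTop
  have hn1 : (2 : ℝ) ≤ n := by exact_mod_cast hn
  -- the number field
  set F : IntermediateField ℚ ℝ := IntermediateField.adjoin ℚ
    (Set.range fun p : Fin n × Fin n => L p.1 p.2) with hFdef
  have hF : FiniteDimensional ℚ F := by
    apply IntermediateField.finiteDimensional_adjoin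
    rintro x ⟨i, rfl⟩
    exact (hL _ _).isIntegral
  have : NumberField F := { to_charZero := inferInstance, to_finiteDimensional := hF }
  let c : Fin n × Fin n → F := fun i =>
    ⟨L i.1 i.2, IntermediateField.subset_adjoin ℚ _ ⟨i, rfl⟩⟩
  obtain ⟨Nn, hNn⟩ := IsLocalization.exist_integer_multiples_of_finite
    (nonZeroDivisors (NumberField.RingOfIntegers F)) c
  have hN0 : (Nn : NumberField.RingOfIntegers F) ≠ 0 := nonZeroDivisors.ne_zero Nn.2
  have hN' : ∀ i, ∃ M : NumberField.RingOfIntegers F,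
      algebraMap (NumberField.RingOfIntegers F) F M
        = algebraMap (NumberField.RingOfIntegers F) F (Nn : NumberField.RingOfIntegers F)
          * c i := by
    intro i
    obtain ⟨M, hM⟩ := hNn i
    refine ⟨M, ?_⟩
    rw [hM, Algebra.smul_def]
  choose d hd using hN'
  have hinj : Function.Injective (algebraMap (NumberField.RingOfIntegers F) F) :=
    IsFractionRing.injective _ _
  set ψ : NumberField.RingOfIntegers F →+* ℝ :=
    (algebraMap F ℝ).comp (algebraMap (NumberField.RingOfIntegers F) F) with hψ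
  set φ : NumberField.RingOfIntegers F →+* ℂ := Complex.ofRealHom.comp ψ with hφ
  set ν : ℝ := ψ (Nn : NumberField.RingOfIntegers F) with hν
  have hψinj : Function.Injective ψ := (algebraMap F ℝ).injective.comp hinj
  have hν0 : ν ≠ 0 := by
    intro h
    apply hN0
    apply hψinj
    rw [map_zero]
    exact h
  have hψd : ∀ i, ψ (d i) = ν * L i.1 i.2 := by
    intro i
    have h1 := congrArg (algebraMap F ℝ) (hd i)
    rw [map_mul] at h1
    exact h1
  have hφr : ∀ o, φ o = ((ψ o : ℝ) : ℂ) := fun o => rfl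
  let M0 : Matrix (Fin n) (Fin n) (NumberField.RingOfIntegers F) := Matrix.of fun i j => d (i, j)
  have hM0 : M0.det ≠ 0 := by
    intro h
    have h1 : (ψ.mapMatrix M0).det = 0 := by
      rw [← RingHom.map_det, h, map_zero]
    have h2 : ψ.mapMatrix M0 = ν • Matrix.of L := by
      ext i j
      simp only [M0, RingHom.mapMatrix_apply, Matrix.map_apply, Matrix.of_apply, Matrix.smul_apply,
        smul_eq_mul, hψd]
    rw [h2, Matrix.det_smul] at h1
    rcases mul_eq_zero.1 h1 with h3 | h3
    · exact hν0 (eq_zero_of_pow_eq_zero h3)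
    · exact hdet h3
  -- the constant
  set C0 : ℝ := 1 + |ν| * ∑ i, ∑ j, |L i j| with hC0
  have hS0 : 0 ≤ |ν| * ∑ i, ∑ j, |L i j| :=
    mul_nonneg (abs_nonneg _) (Finset.sum_nonneg fun i _ => Finset.sum_nonneg fun j _ =>
      abs_nonneg _)
  have hC01 : 1 ≤ C0 := by rw [hC0]; linarith
  have hlfC : ∀ (i : Fin n) (z : Fin n → ℤ), |ν * lf (L i) z| ≤ C0 * hgt z := by
    intro i z
    have hz : 0 ≤ hgt z := by
      have := le_hgt z i
      exact (abs_nonneg _).trans this
    rw [abs_mul]
    have h1 : ∑ j, |L i j| ≤ ∑ i, ∑ j, |L i j| :=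
      Finset.single_le_sum (f := fun i => ∑ j, |L i j|)
        (fun i _ => Finset.sum_nonneg fun j _ => abs_nonneg _) (Finset.mem_univ i)
    calc |ν| * |lf (L i) z| ≤ |ν| * ((∑ j, |L i j|) * hgt z) :=
          mul_le_mul_of_nonneg_left (lf_le _ _) (abs_nonneg _)
      _ = (|ν| * ∑ j, |L i j|) * hgt z := by ring
      _ ≤ C0 * hgt z := by
          apply mul_le_mul_of_nonneg_right _ hz
          rw [hC0]
          have := mul_le_mul_of_nonneg_left h1 (abs_nonneg ν)
          linarith
  -- the exponent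
  set K : ℝ := (n : ℝ) + 1 with hK
  set γ : ℝ := min ε 1 with hγ
  have hγ0 : 0 < γ := lt_min hε one_pos
  -- the tail
  obtain ⟨t0, ht0⟩ : ∃ t0 : ℕ, ∀ t, t0 ≤ t → |ν| ^ n ≤ (t : ℝ) ∧
      (n * Real.log C0 + 1) ≤ Real.log (hgt (x t)) := by
    obtain ⟨t0, ht0⟩ := eventually_atTop.1 ((hC.eventually (eventually_ge_atTop (|ν| ^ n))).and
      (hN.eventually (eventually_ge_atTop (n * Real.log C0 + 1))))
    exact ⟨t0, ht0⟩
  have hlC0 : 0 ≤ Real.log C0 := Real.log_nonneg hC01
  have hHp : ∀ t, 0 < hgt (x t) := fun t => by linarith [hgt_ge_one (hx t)]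
  let A : ℕ → Fin n → ℝ := fun t l =>
    max |ν * lf (L l) (x (t + t0))| (hgt (x (t + t0)) ^ (-K))
  have hA0 : ∀ t l, 0 < A t l := fun t l =>
    lt_of_lt_of_le (Real.rpow_pos_of_pos (hHp _) _) (le_max_right _ _)
  have hl0 : ∀ t, 1 ≤ Real.log (hgt (x (t + t0))) := fun t => by
    have := (ht0 (t + t0) (Nat.le_add_left _ _)).2
    have h2 : 0 ≤ n * Real.log C0 := by positivity
    linarith
  have hlC : ∀ t, n * Real.log C0 ≤ Real.log (hgt (x (t + t0))) := fun t => by
    have := (ht0 (t + t0) (Nat.le_add_left _ _)).2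
    linarith
  have hlC' : ∀ t, Real.log C0 ≤ Real.log (hgt (x (t + t0))) := fun t => by
    refine le_trans ?_ (hlC t)
    nlinarith
  have hAup : ∀ t l, Real.log (A t l) ≤ Real.log C0 + Real.log (hgt (x (t + t0))) := by
    intro t l
    rw [← Real.log_mul (by linarith) (hHp _).ne']
    apply Real.log_le_log (hA0 t l)
    refine max_le (hlfC _ _) ?_
    have h1 : hgt (x (t + t0)) ^ (-K) ≤ 1 :=
      Real.rpow_le_one_of_one_le_of_nonpos (hgt_ge_one (hx _)) (by rw [hK]; linarith)
    have h2 : 1 ≤ C0 * hgt (x (t + t0)) := by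
      have := hgt_ge_one (hx (t + t0))
      nlinarith
    linarith
  have hAlo : ∀ t l, -K * Real.log (hgt (x (t + t0))) ≤ Real.log (A t l) := by
    intro t l
    rw [← Real.log_rpow (hHp _)]
    exact Real.log_le_log (Real.rpow_pos_of_pos (hHp _) _) (le_max_right _ _)
  have hsum : ∀ t, ∑ l, Real.log (A t l) ≤ -γ * Real.log (hgt (x (t + t0))) := by
    intro t
    by_cases hall : ∀ l, hgt (x (t + t0)) ^ (-K) ≤ |ν * lf (L l) (x (t + t0))|
    · have h1 : ∀ l, A t l = |ν * lf (L l) (x (t + t0))| := fun l => max_eq_left (hall l)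
      rw [← Real.log_prod (fun l _ => (hA0 t l).ne')]
      simp_rw [h1, abs_mul]
      rw [Finset.prod_mul_distrib, Finset.prod_const, Finset.card_univ, Fintype.card_fin]
      have h2 : |ν| ^ n * ∏ i, |lf (L i) (x (t + t0))| ≤ hgt (x (t + t0)) ^ (-ε) := by
        refine le_trans ?_ (hsm (t + t0)).le
        exact mul_le_mul_of_nonneg_right (ht0 (t + t0) (Nat.le_add_left _ _)).1
          (Finset.prod_nonneg fun i _ => abs_nonneg _)
      have h3 : 0 < |ν| ^ n * ∏ i, |lf (L i) (x (t + t0))| := by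
        have h4 : ∀ l, 0 < |ν * lf (L l) (x (t + t0))| := fun l => by
          rw [← h1]
          exact hA0 t l
        refine mul_pos (pow_pos (abs_pos.2 hν0) _) (Finset.prod_pos fun i _ => ?_)
        have := h4 i
        rw [abs_mul] at this
        exact pos_of_mul_pos_right this (abs_nonneg _)
      have h5 := Real.log_le_log h3 h2
      rw [Real.log_rpow (hHp _)] at h5
      refine h5.trans ?_
      have := hl0 t
      have h6 : γ ≤ ε := min_le_left _ _
      nlinarith
    · push Not at hall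
      obtain ⟨l0, hl1⟩ := hall
      have h1 : A t l0 = hgt (x (t + t0)) ^ (-K) := max_eq_right hl1.le
      rw [← Finset.add_sum_erase _ _ (Finset.mem_univ l0), h1, Real.log_rpow (hHp _)]
      have h2 : ∑ l ∈ Finset.univ.erase l0, Real.log (A t l) ≤
          ∑ _l ∈ (Finset.univ : Finset (Fin n)).erase l0,
            (Real.log C0 + Real.log (hgt (x (t + t0)))) :=
        Finset.sum_le_sum fun l _ => hAup t l
      rw [Finset.sum_const, Finset.card_erase_of_mem (Finset.mem_univ l0), Finset.card_univ,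
        Fintype.card_fin, nsmul_eq_mul, Nat.cast_sub (by omega), Nat.cast_one] at h2
      have h3 := hl0 t
      have h4 := hlC t
      have h6 : γ ≤ 1 := min_le_right _ _
      have h7 : (n : ℝ) * Real.log C0 - Real.log C0 ≤ Real.log (hgt (x (t + t0))) := by
        linarith
      rw [hK]
      nlinarith
  have key := subspaceO (NumberField.RingOfIntegers F) φ n 0 (by omega)
    M0 1 (fun v => v.elim0)
    (by
      refine ⟨hM0, fun i j => ?_, ?_, fun v => v.elim0⟩
      · rw [hφr, Complex.ofReal_im]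
      · rw [Matrix.det_one]
        exact one_ne_zero)
    (K + 2) γ (by rw [hK]; linarith) hγ0 (fun t => Real.log (hgt (x (t + t0))))
    (hN.comp (tendsto_add_atTop_nat t0)) (fun _ v => v.elim0) (fun _ => 1)
    (by
      intro t
      refine ⟨by rw [Matrix.det_one]; exact one_ne_zero, ?_⟩
      ext i j
      unfold bet
      simp [Matrix.one_apply])
    A
    (by
      intro t
      refine ⟨?_, hA0 t, ?_, ?_⟩
      · simp only [Matrix.det_one, Int.cast_one, abs_one, Real.log_one]
        have := hl0 t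
        rw [hK]
        positivity
      · intro l
        rw [abs_le]
        have h1 := hAup t l
        have h2 := hAlo t l
        have h3 := hl0 t
        have h4 := hlC' t
        constructor
        · nlinarith
        · rw [hK]
          nlinarith
      · have := hsum t
        simp only [Matrix.det_one, Int.cast_one, abs_one, Real.log_one]
        linarith)
    (fun t => x (t + t0)) (fun t => hx _)
    (by
      intro t
      refine ⟨fun l => ?_, x (t + t0), by simp⟩
      refine le_trans (le_of_eq ?_) (le_max_left _ _)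
      rw [hφr, Complex.norm_real, Real.norm_eq_abs, map_sum]
      congr 1
      unfold lf
      rw [Finset.mul_sum]
      refine Finset.sum_congr rfl fun j _ => ?_
      rw [map_mul, map_intCast]
      simp only [M0, Matrix.of_apply, hψd]
      ring)
  obtain ⟨y, hy, hfr⟩ := key
  obtain ⟨j, hj⟩ := he y hy
  rw [frequently_atTop] at hfr
  obtain ⟨t, ht, hty⟩ := hfr j
  refine hoff (t + t0) j (by omega) ?_
  rw [hj]
  exact hty

/-- Schmidt's subspace theorem -/
theorem schmidt {n : ℕ} (hn : 2 ≤ n) (L : Fin n → Fin n → ℝ)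
    (hL : ∀ i j, IsAlgebraic ℚ (L i j)) (hdet : (Matrix.of L).det ≠ 0)
    (ε : ℝ) (hε : 0 < ε) :
    ∃ (Z : Finset (Fin n → ℤ)) (C : ℝ), (∀ z ∈ Z, z ≠ 0) ∧ 0 < C ∧ ∀ x : Fin n → ℤ, x ≠ 0 →
      (∀ z ∈ Z, ∑ l, z l * x l ≠ 0) → hgt x ^ (-ε) ≤ C * ∏ i, |lf (L i) x| := by
  classical
  by_contra hcon
  push Not at hcon
  -- an enumeration
  have hne : Nonempty {z : Fin n → ℤ // z ≠ 0} := by
    refine ⟨⟨fun _ => 1, fun h => ?_⟩⟩
    have := congrFun h ⟨0, by omega⟩
    simp at this
  obtain ⟨e, he⟩ := exists_surjective_nat {z : Fin n → ℤ // z ≠ 0}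
  have hex : ∀ t : ℕ, ∃ x : Fin n → ℤ, x ≠ 0 ∧ (∀ j ≤ t, ∑ l, (e j).1 l * x l ≠ 0) ∧
      ((t : ℝ) + 1) * ∏ i, |lf (L i) x| < hgt x ^ (-ε) := by
    intro t
    obtain ⟨x, hx0, hx1, hx2⟩ := hcon ((Finset.range (t + 1)).image fun j => (e j).1) (t + 1) (by
      intro z hz
      obtain ⟨j, -, rfl⟩ := Finset.mem_image.1 hz
      exact (e j).2) (by positivity)
    refine ⟨x, hx0, fun j hj => hx1 _ (Finset.mem_image_of_mem _ (Finset.mem_range.2 (by omega))),
      hx2⟩
  choose x hx0 hx1 hx2 using hex
  have hH : ∀ t, 1 ≤ hgt (x t) := fun t => hgt_ge_one (hx0 t)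
  have hN : Tendsto (fun t => Real.log (hgt (x t))) atTop atTop := by
    rw [tendsto_atTop]
    intro B
    have hfin : {x : Fin n → ℤ | hgt x ≤ Real.exp B}.Finite := hgt_fin _
    -- every vector is on a hyperplane
    have hker : ∀ v : Fin n → ℤ, ∃ j, ∑ l, (e j).1 l * v l = 0 := by
      intro v
      set i0 : Fin n := ⟨0, by omega⟩
      set i1 : Fin n := ⟨1, by omega⟩
      have h01 : i0 ≠ i1 := by
        intro h
        have := congrArg Fin.val h
        simp [i0, i1] at this
      by_cases hv : v i0 = 0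
      · obtain ⟨j, hj⟩ := he ⟨fun l => if l = i0 then 1 else 0, fun h => by
          have := congrFun h i0
          simp at this⟩
        refine ⟨j, ?_⟩
        rw [hj]
        simp [hv]
      · obtain ⟨j, hj⟩ := he ⟨fun l => if l = i0 then v i1 else if l = i1 then - v i0 else 0,
          fun h => by
            have := congrFun h i1
            simp only [if_neg h01.symm, if_true, Pi.zero_apply, neg_eq_zero] at this
            exact hv this⟩
        refine ⟨j, ?_⟩
        rw [hj]
        have h2 : ∀ l, (if l = i0 then v i1 else if l = i1 then - v i0 else 0) * v l =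
            (if l = i0 then v i1 * v i0 else 0) + (if l = i1 then - v i0 * v i1 else 0) := by
          intro l
          by_cases h : l = i0
          · rw [h, if_pos rfl, if_pos rfl, if_neg h01, add_zero]
          · rw [if_neg h, if_neg h, zero_add]
            by_cases h' : l = i1
            · rw [h', if_pos rfl, if_pos rfl]
            · rw [if_neg h', if_neg h', zero_mul]
        simp only [h2, Finset.sum_add_distrib, Finset.sum_ite_eq', Finset.mem_univ, if_true]
        ring
    choose j hj using hker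
    filter_upwards [eventually_ge_atTop (hfin.toFinset.sup j)] with t ht
    by_contra hlt
    push Not at hlt
    have hmem : x t ∈ hfin.toFinset := by
      rw [Set.Finite.mem_toFinset]
      show hgt (x t) ≤ Real.exp B
      rw [← Real.exp_log (by linarith [hH t] : 0 < hgt (x t))]
      exact Real.exp_le_exp.2 hlt.le
    exact hx1 t (j (x t)) ((Finset.le_sup hmem).trans ht) (hj (x t))
  refine no_seq hn L hL hdet ε hε x hx0 (fun j => (e j).1) (fun z hz => ?_) hx1 hN (fun t => ?_)
  · obtain ⟨j, hj⟩ := he ⟨z, hz⟩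
    exact ⟨j, by rw [hj]⟩
  · refine lt_of_le_of_lt ?_ (hx2 t)
    exact mul_le_mul_of_nonneg_right (by linarith) (Finset.prod_nonneg fun i _ => abs_nonneg _)

end Pool.Agent.Q13.CQ
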